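import Pool.Agent.K3K.LL
import Pool.Agent.TwoDens.Bridge

/-!
The lower bound for `M(m, s + 1)` above the level `(k + 1) / 2`, from Lemma L.
-/

open Finset

namespace Pool.Agent.TwoDens.K4S

open Pool.Agent.TwoDens Pool.Agent.TwoDens.RK Pool.Agent.TwoDens.DD Pool.Agent.TwoDens.TS
  Pool.Agent.TwoDens.K3K

/-- `M(m, s + 1) ≥ (k + 1) / 2 + ((k + 1) m - (k ^ 2 + k + 2) s) / (2 (m - 2))` for
`(k ^ 2 + k + 2) s ≤ (k + 1) m` -/
theorem lower (k m s : ℕ) (hk : 2 ≤ k) (hs : 1 ≤ s) (hm : 3 ≤ m)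
    (h : (k ^ 2 + k + 2) * s ≤ (k + 1) * m) :
    ((k : ℝ) + 1) / 2 + (((k : ℝ) + 1) * m - ((k : ℝ) ^ 2 + k + 2) * s) / (2 * ((m : ℝ) - 2)) ≤
      minTwoDensity m (s + 1) := by
  have hkR : (2 : ℝ) ≤ k := by exact_mod_cast hk
  have hsR : (1 : ℝ) ≤ s := by exact_mod_cast hs
  have hmR : (3 : ℝ) ≤ m := by exact_mod_cast hm
  have hR : ((k : ℝ) ^ 2 + k + 2) * s ≤ ((k : ℝ) + 1) * m := by exact_mod_cast h
  obtain ⟨t, ht⟩ : ∃ t : ℝ,
      t = (((k : ℝ) + 1) * m - ((k : ℝ) ^ 2 + k + 2) * s) / ((m : ℝ) - 2) := ⟨_, rfl⟩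
  have ht1 : t * ((m : ℝ) - 2) = ((k : ℝ) + 1) * m - ((k : ℝ) ^ 2 + k + 2) * s := by
    rw [ht, div_mul_cancel₀ _ (by linarith)]
  have ht0 : 0 ≤ t := by
    rw [ht]
    exact div_nonneg (by linarith) (by linarith)
  have htk : t ≤ k + 1 := by
    have h1 : ((k : ℝ) ^ 2 + k + 2) * 1 ≤ ((k : ℝ) ^ 2 + k + 2) * s :=
      mul_le_mul_of_nonneg_left hsR (by positivity)
    have h2 : t * ((m : ℝ) - 2) ≤ ((k : ℝ) + 1) * ((m : ℝ) - 2) := by
      rw [ht1]
      nlinarith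
    exact le_of_mul_le_mul_right h2 (by linarith)
  have hc : (((k : ℝ) + 1) * m - ((k : ℝ) ^ 2 + k + 2) * s) / (2 * ((m : ℝ) - 2)) = t / 2 := by
    rw [ht, mul_comm (2 : ℝ), ← div_div]
  rw [hc]
  refine le_minTwoDensity (by omega) ?_
  intro G _ hα
  by_contra hcon
  push Not at hcon
  have hn : (Finset.univ : Finset (Fin m)).card = m := by
    rw [Finset.card_univ, Fintype.card_fin]
  have hal : al G Finset.univ ≤ s := al_le (fun I _ hI => by
    have := hα I hI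
    omega)
  obtain ⟨P, hP⟩ := exists_dec (G := G) Finset.univ
  have h3 : ∑ X ∈ P, X.card = m := by
    have h0 : (P.biUnion id).card = ∑ X ∈ P, X.card :=
      card_biUnion (fun A hA B hB h => hP.disj A hA B hB h)
    rw [hP.un] at h0
    exact h0.symm.trans hn
  have hPn : P.Nonempty := by
    rw [nonempty_iff_ne_empty]
    rintro rfl
    rw [sum_empty] at h3
    omega
  have hpart : ∀ X ∈ P,
      ((k : ℝ) + 1 - t) * X.card + 2 * t < ((k : ℝ) ^ 2 + k + 2) * al G X := by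
    intro X hX
    have ha := al_pos (G := G) (hP.ind X hX).1
    have haR : (1 : ℝ) ≤ al G X := by exact_mod_cast ha
    have hb : ((k : ℝ) ^ 2 + k + 2) * 1 ≤ ((k : ℝ) ^ 2 + k + 2) * al G X :=
      mul_le_mul_of_nonneg_left haR (by positivity)
    have hc1 := (hP.ind X hX).1.card_pos
    rcases Nat.lt_or_ge X.card 3 with h4 | h4
    · have h5 : X.card = 1 ∨ X.card = 2 := by omega
      rcases h5 with h5 | h5
      · rw [h5]
        push_cast
        nlinarith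
      · rw [h5]
        push_cast
        nlinarith
    · have h5 := hcon X h4
      have h6 := lemL_fin k m G X (hP.ind X hX)
      have h7 : 2 * ((k : ℝ) + 1) * X.card ≤ e2 G X + ((k : ℝ) ^ 2 + k + 2) * al G X + 2 * k := by
        exact_mod_cast h6
      have h8 : 2 * (((k : ℝ) + 1) / 2 + t / 2) * ((X.card : ℝ) - 2) =
          ((k : ℝ) + 1 + t) * X.card - 2 * ((k : ℝ) + 1) - 2 * t := by ring
      rw [h8] at h5
      linarith
  have h5 : ∑ X ∈ P, (((k : ℝ) + 1 - t) * X.card + 2 * t) <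
      ∑ X ∈ P, ((k : ℝ) ^ 2 + k + 2) * al G X := sum_lt_sum_of_nonempty hPn hpart
  have h6 : ∑ X ∈ P, (X.card : ℝ) = m := by exact_mod_cast h3
  have h7 : ∑ X ∈ P, (al G X : ℝ) = al G Finset.univ := by exact_mod_cast hP.sum
  have e1 : ∑ X ∈ P, (((k : ℝ) + 1 - t) * X.card + 2 * t) =
      ((k : ℝ) + 1 - t) * m + P.card * (2 * t) := by
    rw [sum_add_distrib, ← mul_sum, h6, sum_const, nsmul_eq_mul]
  have e2 : ∑ X ∈ P, ((k : ℝ) ^ 2 + k + 2) * al G X =
      ((k : ℝ) ^ 2 + k + 2) * al G Finset.univ := by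
    rw [← mul_sum, h7]
  rw [e1, e2] at h5
  have h8 : (al G Finset.univ : ℝ) ≤ s := by exact_mod_cast hal
  have h9 : ((k : ℝ) ^ 2 + k + 2) * al G Finset.univ ≤ ((k : ℝ) ^ 2 + k + 2) * s :=
    mul_le_mul_of_nonneg_left h8 (by positivity)
  have h10 : (1 : ℝ) ≤ P.card := by exact_mod_cast hPn.card_pos
  have h11 : 1 * (2 * t) ≤ P.card * (2 * t) :=
    mul_le_mul_of_nonneg_right h10 (by linarith)
  linarith

end Pool.Agent.TwoDens.K4S
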